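import Pool.Agent.N928.FG.Stm

/-!
`W` is Lipschitz at `1`, above and below (project FG of helper928; file by helper442).
-/

set_option autoImplicit false

namespace Pool.Agent.N442.FG

open Pool.Agent.N928.FG Filter Topology

theorem bet_pos {β : ℝ} (h0 : 0 < β) (i : Fin 6) : 0 < bet β i := by
  unfold bet; split_ifs <;> linarith

theorem bet_le {β : ℝ} (h1 : β ≤ 1 / 2) (i : Fin 6) : bet β i ≤ 1 / 2 := by
  unfold bet; split_ifs <;> linarith

theorem an_nonneg (hS : S_S1) {β : ℝ} (h0 : 0 < β) (h1 : β ≤ 1 / 2) (n : ℕ) : 0 ≤ an β n :=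
  Finset.prod_nonneg fun i _ => (hS (bet β i) (bet_pos h0 i) (bet_le h1 i) n 0).1

theorem an_one (β : ℝ) : an β 1 = ∏ i, (1 - bet β i) := by
  unfold an
  refine Finset.prod_congr rfl fun i _ => ?_
  simp [s]

theorem an_one_pos {β : ℝ} (h1 : β ≤ 1 / 2) : 0 < an β 1 := by
  rw [an_one]
  refine Finset.prod_pos fun i _ => ?_
  have := bet_le h1 i
  linarith

theorem summable_mul (hAB : S_AB) (hS : S_S1) {β : ℝ} (h0 : 0 < β) (h1 : β ≤ 1 / 2) :
    Summable fun n : ℕ => (n : ℝ) * an β n := by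
  obtain ⟨c, C, _, hC, h⟩ := hAB.1 β h0 h1
  have hs : Summable fun n : ℕ => C * (1 / (n : ℝ) ^ 2) :=
    (Real.summable_one_div_nat_pow.2 (by norm_num)).mul_left C
  refine Summable.of_nonneg_of_le (fun n => mul_nonneg (Nat.cast_nonneg n) (an_nonneg hS h0 h1 n))
    (fun n => ?_) hs
  rcases Nat.eq_zero_or_pos n with rfl | hn
  · simp
  · have h2 := (h n hn).2
    have hn' : (0 : ℝ) < n := by exact_mod_cast hn
    calc (n : ℝ) * an β n ≤ n * (C / (n : ℝ) ^ 3) := by gcongr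
      _ = C * (1 / (n : ℝ) ^ 2) := by field_simp

theorem summable_an (hAB : S_AB) (hS : S_S1) {β : ℝ} (h0 : 0 < β) (h1 : β ≤ 1 / 2) :
    Summable fun n : ℕ => an β n := by
  rw [← summable_nat_add_iff 1]
  refine Summable.of_nonneg_of_le (fun n => an_nonneg hS h0 h1 _) (fun n => ?_)
    ((summable_nat_add_iff 1).2 (summable_mul hAB hS h0 h1))
  have h2 := an_nonneg hS h0 h1 (n + 1)
  have h3 : (1 : ℝ) ≤ ((n + 1 : ℕ) : ℝ) := by
    push_cast
    linarith [(Nat.cast_nonneg n : (0 : ℝ) ≤ n)]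
  nlinarith

theorem t_WLIN : S_AB → S_S1 → S_WLIN := by
  intro hAB hS β h0 h1
  have hsm := summable_mul hAB hS h0 h1
  have hsa := summable_an hAB hS h0 h1
  have hp := an_one_pos h1
  have hT : 0 ≤ ∑' n : ℕ, (n : ℝ) * an β n :=
    tsum_nonneg fun n => mul_nonneg (Nat.cast_nonneg n) (an_nonneg hS h0 h1 n)
  refine ⟨2 * an β 1, 2 * (∑' n : ℕ, (n : ℝ) * an β n) + 1, by positivity, by positivity, ?_⟩
  intro u hu0 hu1
  have hsu : Summable fun n : ℕ => an β n * u ^ n := by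
    refine Summable.of_nonneg_of_le
      (fun n => mul_nonneg (an_nonneg hS h0 h1 n) (pow_nonneg hu0 n)) (fun n => ?_) hsa
    have h2 : u ^ n ≤ 1 := pow_le_one₀ hu0 hu1
    nlinarith [an_nonneg hS h0 h1 n]
  have hsd : Summable fun n : ℕ => an β n * (1 - u ^ n) := by
    refine (hsa.sub hsu).congr fun n => ?_
    ring
  have hnn : ∀ n : ℕ, 0 ≤ an β n * (1 - u ^ n) := fun n => by
    have h2 : u ^ n ≤ 1 := pow_le_one₀ hu0 hu1
    exact mul_nonneg (an_nonneg hS h0 h1 n) (by linarith)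
  have hW : W β 1 - W β u = 2 * ∑' n : ℕ, an β n * (1 - u ^ n) := by
    have h2 : ∑' n : ℕ, an β n * (1 - u ^ n) = (∑' n : ℕ, an β n) - ∑' n : ℕ, an β n * u ^ n := by
      rw [← hsa.tsum_sub hsu]
      exact tsum_congr fun n => by ring
    rw [h2]
    unfold W GG
    simp only [one_pow, mul_one]
    ring
  rw [hW]
  constructor
  · have h3 := hsd.le_tsum 1 (fun n _ => hnn n)
    simp only [pow_one] at h3
    linarith
  · have h4 : ∑' n : ℕ, an β n * (1 - u ^ n) ≤ ∑' n : ℕ, ((n : ℝ) * an β n) * (1 - u) := by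
      refine hsd.tsum_le_tsum (fun n => ?_) (hsm.mul_right _)
      have h5 := one_add_mul_le_pow (a := u - 1) (by linarith) n
      have h6 : 1 - u ^ n ≤ n * (1 - u) := by
        rw [show (1 : ℝ) + (u - 1) = u by ring] at h5
        linarith
      calc an β n * (1 - u ^ n) ≤ an β n * (n * (1 - u)) :=
            mul_le_mul_of_nonneg_left h6 (an_nonneg hS h0 h1 n)
        _ = ((n : ℝ) * an β n) * (1 - u) := by ring
    rw [tsum_mul_right] at h4
    nlinarith

end Pool.Agent.N442.FG
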